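import Pool.Agent.H7.GT.Stmts

/-!
# Row EXB of the board `gt7`: double counting of pairs (clique in a neighbourhood, transversal)
-/

set_option autoImplicit false

open Finset

namespace Pool.GT7

open Pool.Agent.H23.KT Pool.Agent.H46.KW Pool.KQ

theorem EXB_low {V : Type} [DecidableEq V] (G : SimpleGraph V) (p j : ℕ) (y : ℝ) (hy : 0 ≤ y)
    (P : Fin (p + 3) → Finset V) (hP : Par G P) (hlo : ∀ i, y ≤ ((P i).card : ℝ))
    (S : Finset V) (hSX : S ⊆ un P) (hSj : S.card = j)
    (hSc : ∀ x ∈ S, ∀ x' ∈ S, x ≠ x' → G.Adj x x') :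
    y ^ (p + 3 - j) ≤
      (((Fintype.piFinset P).filter (fun f => S ⊆ univ.image f)).card : ℝ) := by
  classical
  have hle : ∀ i, (S ∩ P i).card ≤ 1 := by
    intro i
    rw [card_le_one]
    intro x hx x' hx'
    rw [mem_inter] at hx hx'
    by_contra hne
    exact hP.ind i x hx.2 x' hx'.2 (hSc x hx.1 x' hx'.1 hne)
  have hsum : ∑ i, (S ∩ P i).card = j := by
    rw [← card_biUnion]
    · refine Eq.trans ?_ hSj
      congr 1
      ext x
      rw [mem_biUnion]
      constructor
      · rintro ⟨i, _, hx⟩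
        exact (mem_inter.1 hx).1
      · intro hx
        obtain ⟨i, _, hi⟩ := mem_biUnion.1 (hSX hx)
        exact ⟨i, mem_univ i, mem_inter.2 ⟨hx, hi⟩⟩
    · intro i _ k _ hik
      exact (hP.dis i k hik).mono inter_subset_right inter_subset_right
  have hcd : ∀ i, (S ∩ P i).Nonempty → (S ∩ P i).card = 1 := fun i hi =>
    le_antisymm (hle i) (card_pos.2 hi)
  have hnum : (univ.filter (fun i => ¬ (S ∩ P i).Nonempty)).card = p + 3 - j := by
    have h1 : (univ.filter (fun i => (S ∩ P i).Nonempty)).card = j := by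
      rw [card_filter, ← hsum]
      refine sum_congr rfl fun i _ => ?_
      by_cases hi : (S ∩ P i).Nonempty
      · rw [if_pos hi, hcd i hi]
      · rw [if_neg hi, not_nonempty_iff_eq_empty.1 hi, card_empty]
    have h2 := card_filter_add_card_filter_not (s := (univ : Finset (Fin (p + 3))))
      (fun i => (S ∩ P i).Nonempty)
    rw [h1, card_univ, Fintype.card_fin] at h2
    omega
  let Q : Fin (p + 3) → Finset V := fun i => if (S ∩ P i).Nonempty then S ∩ P i else P i
  have hQsub : Fintype.piFinset Q ⊆ (Fintype.piFinset P).filter (fun f => S ⊆ univ.image f) := by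
    intro f hf
    rw [Fintype.mem_piFinset] at hf
    rw [mem_filter, Fintype.mem_piFinset]
    refine ⟨fun i => ?_, fun s hs => ?_⟩
    · have h1 := hf i
      by_cases hi : (S ∩ P i).Nonempty
      · simp only [Q, if_pos hi] at h1
        exact (mem_inter.1 h1).2
      · simp only [Q, if_neg hi] at h1
        exact h1
    · obtain ⟨i, _, hi⟩ := mem_biUnion.1 (hSX hs)
      have hsi : s ∈ S ∩ P i := mem_inter.2 ⟨hs, hi⟩
      have hne : (S ∩ P i).Nonempty := ⟨s, hsi⟩
      have h1 := hf i
      simp only [Q, if_pos hne] at h1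
      have h2 := card_le_one.1 (hle i) _ h1 _ hsi
      exact mem_image.2 ⟨i, mem_univ i, h2⟩
  have h3 : y ^ (p + 3 - j) ≤ ∏ i, ((Q i).card : ℝ) := by
    calc y ^ (p + 3 - j) = ∏ i : Fin (p + 3), (if (S ∩ P i).Nonempty then (1 : ℝ) else y) := by
          rw [prod_ite, prod_const_one, one_mul, prod_const, hnum]
      _ ≤ ∏ i, ((Q i).card : ℝ) := by
          refine prod_le_prod (fun i _ => ?_) (fun i _ => ?_)
          · split_ifs
            · exact zero_le_one
            · exact hy
          · by_cases hi : (S ∩ P i).Nonempty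
            · simp only [Q, if_pos hi]
              rw [hcd i hi, Nat.cast_one]
            · simp only [Q, if_neg hi]
              exact hlo i
  refine h3.trans ?_
  have h4 := card_le_card hQsub
  rw [Fintype.card_piFinset] at h4
  exact_mod_cast h4

theorem EXB_thm (h1 : TRVStmt) (h2 : BRKStmt) : EXBStmt := by
  intro V _ G p a e P he0 he hP hsz z j hj
  classical
  have ha : (0 : ℝ) ≤ a := Nat.cast_nonneg a
  have hy : 0 ≤ (1 - e) * (a : ℝ) := mul_nonneg (by linarith) ha
  obtain ⟨C, hC⟩ : ∃ C, C = clq G (nb G (un P) z) j := ⟨_, rfl⟩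
  obtain ⟨F, hF⟩ : ∃ F, F = Fintype.piFinset P := ⟨_, rfl⟩
  have hlow : ∀ S ∈ C, ((1 - e) * a) ^ (p + 3 - j) ≤
      ((F.filter (fun f => S ⊆ univ.image f)).card : ℝ) := by
    intro S hS
    rw [hC, mem_clq] at hS
    obtain ⟨s1, s2, s3⟩ := hS
    rw [hF]
    refine EXB_low G p j _ hy P hP (fun i => (hsz i).1) S (fun x hx => ?_) s2
      (fun x hx x' hx' hne => s3 hx hx' hne)
    exact ((mem_nb G).1 (s1 hx)).1
  have hup : ∀ f ∈ F, (C.filter (fun S => S ⊆ univ.image f)).card ≤
      (nb G (univ.image f) z).card.choose j := by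
    intro f _
    rw [← card_powersetCard]
    refine card_le_card fun S hS => ?_
    rw [mem_filter, hC, mem_clq] at hS
    obtain ⟨⟨s1, s2, -⟩, s4⟩ := hS
    rw [mem_powersetCard]
    refine ⟨fun x hx => (mem_nb G).2 ⟨s4 hx, ((mem_nb G).1 (s1 hx)).2⟩, s2⟩
  have hup' : ∀ f ∈ F, (C.filter (fun S => S ⊆ univ.image f)).card ≤ (p + 3).choose j := by
    intro f hf
    refine (hup f hf).trans (Nat.choose_le_choose j ?_)
    have h3 : (nb G (univ.image f) z).card ≤ (univ.image f).card :=
      card_le_card fun x hx => ((mem_nb G).1 hx).1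
    refine h3.trans (card_image_le.trans ?_)
    rw [card_univ, Fintype.card_fin]
  have hdc : ∑ S ∈ C, (F.filter (fun f => S ⊆ univ.image f)).card =
      ∑ f ∈ F, (C.filter (fun S => S ⊆ univ.image f)).card := by
    simp only [card_filter]
    exact sum_comm
  have hsub : trv G P ⊆ F := by
    rw [hF]
    exact filter_subset _ _
  have hcF : F.card = ∏ i, (P i).card := by rw [hF, Fintype.card_piFinset]
  have hbr := (h2 G p P).1 (2 * a) (by
    intro i
    have h4 : ((P i).card : ℝ) ≤ 2 * a := (hsz i).2.trans (by nlinarith)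
    exact_mod_cast h4)
  have hcard := card_sdiff_add_card_eq_card hsub
  have hsd : (F \ trv G P).card ≤ tot G P * (2 * a) ^ (p + 1) := by omega
  have hsum1 : ∑ f ∈ trv G P, (C.filter (fun S => S ⊆ univ.image f)).card ≤
      ∑ f ∈ trv G P, (nb G (univ.image f) z).card.choose j :=
    sum_le_sum fun f hf => hup f (hsub hf)
  have hsum2 : ∑ f ∈ F \ trv G P, (C.filter (fun S => S ⊆ univ.image f)).card ≤
      (F \ trv G P).card * (p + 3).choose j := by
    rw [← smul_eq_mul]
    exact sum_le_card_nsmul _ _ _ fun f hf => hup' f (mem_sdiff.1 hf).1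
  have htr := (h1 G P hP).2 (fun L => ((nb G L z).card.choose j : ℝ))
  have hnat : ∑ S ∈ C, (F.filter (fun f => S ⊆ univ.image f)).card ≤
      tot G P * (2 * a) ^ (p + 1) * (p + 3).choose j +
        ∑ f ∈ trv G P, (nb G (univ.image f) z).card.choose j := by
    rw [hdc, ← sum_sdiff hsub]
    exact Nat.add_le_add (hsum2.trans (Nat.mul_le_mul_right _ hsd)) hsum1
  have hreal : ∑ S ∈ C, ((F.filter (fun f => S ⊆ univ.image f)).card : ℝ) ≤
      (tot G P : ℝ) * (2 * (a : ℝ)) ^ (p + 1) * ((p + 3).choose j : ℝ) +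
        ∑ f ∈ trv G P, ((nb G (univ.image f) z).card.choose j : ℝ) := by
    exact_mod_cast hnat
  have hl : ((1 - e) * a) ^ (p + 3 - j) * (C.card : ℝ) ≤
      ∑ S ∈ C, ((F.filter (fun f => S ⊆ univ.image f)).card : ℝ) := by
    rw [mul_comm, ← nsmul_eq_mul]
    exact card_nsmul_le_sum _ _ _ hlow
  have hkc : (kc G (nb G (un P) z) j : ℝ) = (C.card : ℝ) := by rw [hC]; rfl
  rw [hkc, htr]
  linarith [hl, hreal]

end Pool.GT7
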